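import Pool.Agent.V11315.HausOps

/-!
# Rate constants forcing continuity under Hausdorff approximation (MP_fbd0a7_an, Q1)

All three constants are infinite: a bounded measurable function whose completed graph is
approximated with any finite rate constant is continuous.
-/

open MeasureTheory Set Filter Topology Real
open scoped ENNReal Nat
open Pool.Agent.V11315.Haus

namespace Pool.Agent.Results.MP_fbd0a7_an.AllInfinite

/-- Bounded Lebesgue measurable functions on the line. -/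
structure Adm (f : ℝ → ℝ) : Prop where
  bounded : ∃ M, ∀ x, |f x| ≤ M
  measurable : NullMeasurable f volume

/-- Gauss-Weierstrass -/
noncomputable def W (n : ℕ) (f : ℝ → ℝ) (x : ℝ) : ℝ :=
  √((n : ℝ) / π) * ∫ t, f t * exp (-(n : ℝ) * (t - x) ^ 2)

/-- Abel-Poisson -/
noncomputable def P (ρ : ℝ) (f : ℝ → ℝ) (x : ℝ) : ℝ :=
  1 / (2 * π) * ∫ t in (-π)..π, f (x - t) * ((1 - ρ ^ 2) / (1 - 2 * ρ * cos t + ρ ^ 2))

/-- de la Vallée-Poussin -/
noncomputable def V (n : ℕ) (f : ℝ → ℝ) (x : ℝ) : ℝ :=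
  (n ! : ℝ) ^ 2 / ((2 * π) * ((2 * n)! : ℝ)) *
    ∫ t in (-π)..π, f (x - t) * (2 * cos (t / 2)) ^ (2 * n)

/-- `limsup α n^{1/2} r(α; f, W_n f)` -/
noncomputable def limW (α : ℝ) (f : ℝ → ℝ) : ℝ≥0∞ :=
  limsup (fun n : ℕ => ENNReal.ofReal (α * √(n : ℝ)) * hdist α f (W n f)) atTop

/-- `limsup α / (1 - ρ) r(α; f, P_ρ f)` as `ρ → 1-` -/
noncomputable def limP (α : ℝ) (f : ℝ → ℝ) : ℝ≥0∞ :=
  limsup (fun ρ : ℝ => ENNReal.ofReal (α / (1 - ρ)) * hdist α f (P ρ f)) (𝓝[<] 1)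

/-- `limsup α n^{1/2} r(α; f, V_n f)` -/
noncomputable def limV (α : ℝ) (f : ℝ → ℝ) : ℝ≥0∞ :=
  limsup (fun n : ℕ => ENNReal.ofReal (α * √(n : ℝ)) * hdist α f (V n f)) atTop

/-- The constant `c_W^*`: the supremum of the (finite) `c` such that `limW α f < c` forces
continuity. -/
noncomputable def cW (α : ℝ) : ℝ≥0∞ :=
  sSup {c : ℝ≥0∞ | c < ⊤ ∧ ∀ f, Adm f → limW α f < c → Continuous f}

/-- The constant `c_P^*`. -/
noncomputable def cP (α : ℝ) : ℝ≥0∞ :=
  sSup {c : ℝ≥0∞ | c < ⊤ ∧ ∀ f, Adm f → Function.Periodic f (2 * π) → limP α f < c → Continuous f}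

/-- The constant `c_V^*`. -/
noncomputable def cV (α : ℝ) : ℝ≥0∞ :=
  sSup {c : ℝ≥0∞ | c < ⊤ ∧ ∀ f, Adm f → Function.Periodic f (2 * π) → limV α f < c → Continuous f}

lemma contW {α : ℝ} (hα : 0 < α) {f : ℝ → ℝ} (hf : Adm f) (h : limW α f < ⊤) :
    Continuous f := by
  obtain ⟨M, hM⟩ := hf.bounded
  obtain ⟨C, hC, hev⟩ := rate_of_limsup hα (sqrt_rate hα) h
  exact main goodW hf.measurable.aemeasurable hM hα
    (Eventually.of_forall fun n x => opW_eq n f x) hC hev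

lemma contP {α : ℝ} (hα : 0 < α) {f : ℝ → ℝ} (hf : Adm f) (h : limP α f < ⊤) :
    Continuous f := by
  obtain ⟨M, hM⟩ := hf.bounded
  obtain ⟨C, hC, hev⟩ := rate_of_limsup hα (lin_rate hα) h
  exact main goodP hf.measurable.aemeasurable hM hα
    (Eventually.of_forall fun ρ x => opP_eq ρ f x) hC hev

lemma contV {α : ℝ} (hα : 0 < α) {f : ℝ → ℝ} (hf : Adm f) (h : limV α f < ⊤) :
    Continuous f := by
  obtain ⟨M, hM⟩ := hf.bounded
  obtain ⟨C, hC, hev⟩ := rate_of_limsup hα (sqrt_rate hα) h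
  exact main goodV hf.measurable.aemeasurable hM hα
    (Eventually.of_forall fun n x => opV_eq n f x) hC hev

lemma sup_top {p : ℝ≥0∞ → Prop} (h : ∀ c, p c) : sSup {c : ℝ≥0∞ | c < ⊤ ∧ p c} = ⊤ := by
  rw [sSup_eq_top]
  intro b hb
  obtain ⟨c, hc1, hc2⟩ := exists_between hb
  exact ⟨c, ⟨hc2, h c⟩, hc1⟩

/-- **Main theorem.** All three constants are infinite, and any finite upper limit forces
continuity. -/
theorem result (α : ℝ) (hα : 0 < α) :
    (cW α = ⊤ ∧ cP α = ⊤ ∧ cV α = ⊤) ∧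
    ∀ f : ℝ → ℝ, Adm f →
      ((limW α f < ⊤ → Continuous f) ∧
        (Function.Periodic f (2 * π) → limP α f < ⊤ ∨ limV α f < ⊤ → Continuous f)) := by
  refine ⟨⟨?_, ?_, ?_⟩, fun f hf => ⟨contW hα hf, fun _ h => h.elim (contP hα hf) (contV hα hf)⟩⟩
  · exact sup_top fun c f hf h => contW hα hf (h.trans_le le_top)
  · exact sup_top fun c f hf _ h => contP hα hf (h.trans_le le_top)
  · exact sup_top fun c f hf _ h => contV hα hf (h.trans_le le_top)

end Pool.Agent.Results.MP_fbd0a7_an.AllInfinite
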